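import Pool.Agent.Helper40.ZU.Stmts2

/-!
Row XFN of the sheet ZU (MP_7a8f48_an): the theorem on isometric extensions.
-/

open MeasureTheory Filter Topology Finset

namespace Pool.Agent.Helper40.ZU

open Pool.Agent.Helper98.GY (IsoExt Emb FibreCts GoodC)
open ProbabilityTheory (cond)

/-- the restriction of an invariant measure to an invariant set -/
theorem cond_mp {X : Type} [MeasurableSpace X] {m : Measure X} [IsProbabilityMeasure m]
    {T : X → X} (hT : MeasurePreserving T m m) {s : Set X} (hs : MeasurableSet s)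
    (hi : T ⁻¹' s =ᵐ[m] s) : MeasurePreserving T (cond m s) (cond m s) := by
  refine ⟨hT.measurable, ?_⟩
  have h1 : (m.restrict s).map T = m.restrict s := by
    have h2 := Measure.restrict_map (μ := m) hT.measurable hs
    rw [hT.map_eq] at h2
    rw [Measure.restrict_congr_set hi] at h2
    exact h2.symm
  rw [ProbabilityTheory.cond, Measure.map_smul, h1]

theorem cond_map {X Y : Type} [MeasurableSpace X] [MeasurableSpace Y] {m : Measure X}
    [IsProbabilityMeasure m] {π : X → Y} (hπ : Measurable π) {s : Set Y} (hs : MeasurableSet s) :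
    (cond m (π ⁻¹' s)).map π = cond (m.map π) s := by
  rw [ProbabilityTheory.cond, ProbabilityTheory.cond, Measure.map_smul,
    Measure.map_apply hπ hs, Measure.restrict_map hπ hs]

theorem st_XFN (hLM : ST_VLM) (hAV : ST_VAV) (hCT : ST_ECT) (hMX : ST_MMX) (hIE : ST_XIE) :
    ST_XFN := by
  intro X Y _ _ _ _ _ _ _ _ π S T ρ hI hS hT hcnt hE F hF hB hFF x
  refine hLM X T x F hT hF hB fun j m hj hm hlim => ?_
  have hπ : Measurable π := hI.1.measurable
  have hpr : IsProbabilityMeasure (m.map π) := Measure.isProbabilityMeasure_map hπ.aemeasurable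
  have hpi : ∀ (n : ℕ) (z : X), π (T^[n] z) = S^[n] (π z) := by
    intro n z
    induction n with
    | zero => rfl
    | succ n ih => rw [Function.iterate_succ_apply', Function.iterate_succ_apply', hI.2.1, ih]
  have hle : Filter.map j atTop ≤ atTop := hj.tendsto_atTop
  have hSν : MeasurePreserving S (m.map π) (m.map π) := by
    refine (hAV Y (Filter.map j atTop) S (π x) (m.map π) ⟨inferInstance, hle, hpr, hS.measurable,
      Eventually.of_forall fun z => hS.continuousAt, fun G => ?_⟩).1
    rw [tendsto_map'_iff, integral_map hπ.aemeasurable G.continuous.aestronglyMeasurable]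
    have h1 := hlim (G.comp ⟨π, hI.1⟩)
    refine h1.congr fun k => ?_
    simp only [Function.comp_apply, ContinuousMap.comp_apply, ContinuousMap.coe_mk, hpi]
  obtain ⟨B, hBm, hBd, hBi, hB0, hBE⟩ := hCT Y S hS.measurable hcnt (m.map π) hpr hSν
  have key : ∀ P : Y → Prop, (∀ ν' : Measure Y, IsProbabilityMeasure ν' → Ergodic S ν' →
      ∀ᵐ y ∂ν', P y) → ∀ᵐ z ∂m, P (π z) := by
    intro P hP
    refine ae_of_ae_map (p := P) hπ.aemeasurable ?_
    have h1 : ∀ i, ∀ᵐ y ∂(m.map π), y ∈ B i → P y := by
      intro i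
      by_cases hi : (m.map π) (B i) = 0
      · filter_upwards [measure_eq_zero_iff_ae_notMem.1 hi] with y hy h using absurd h hy
      · have h2 := hP (cond (m.map π) (B i)) (ProbabilityTheory.cond_isProbabilityMeasure hi)
          (hBE i hi)
        rw [← ae_restrict_iff' (hBm i)]
        rw [ProbabilityTheory.cond, ae_iff, Measure.smul_apply, smul_eq_mul, mul_eq_zero] at h2
        rw [ae_iff]
        exact h2.resolve_left (ENNReal.inv_ne_zero.2 (measure_ne_top _ _))
    have h3 : ∀ᵐ y ∂(m.map π), y ∈ ⋃ i, B i := by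
      rw [ae_iff]
      exact hB0
    filter_upwards [ae_all_iff.2 h1, h3] with y h4 h5
    obtain ⟨i, hi⟩ := Set.mem_iUnion.1 h5
    exact h4 i hi
  have hTc : ∀ᵐ z ∂m, ContinuousAt T z := by
    filter_upwards [key (fun y => ∀ x, π x = y → ContinuousAt T x)
      fun ν' h1 h2 => (hE ν' h1 h2).2] with z hz using hz z rfl
  have hFc : ∀ᵐ z ∂m, ContinuousAt F z := by
    filter_upwards [key (fun y => ∀ x, π x = y → ContinuousAt F x)
      fun ν' h1 h2 => hFF ν' h1 h2] with z hz using hz z rfl
  refine ⟨hTc, hFc, ?_⟩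
  have hTm : MeasurePreserving T m m := by
    refine (hAV X (Filter.map j atTop) T x m ⟨inferInstance, hle, hm, hT, hTc, fun G => ?_⟩).1
    rw [tendsto_map'_iff]
    exact hlim G
  have hTi : ∀ i, T ⁻¹' (π ⁻¹' B i) =ᵐ[m] π ⁻¹' B i := by
    intro i
    have h1 : T ⁻¹' (π ⁻¹' B i) = π ⁻¹' (S ⁻¹' B i) := by
      ext z
      simp only [Set.mem_preimage, hI.2.1]
    rw [h1]
    exact eventuallyEq_set.2 (ae_of_ae_map (p := fun y => y ∈ S ⁻¹' B i ↔ y ∈ B i)
      hπ.aemeasurable (eventuallyEq_set.1 (hBi i)))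
  refine hMX X m T (fun i => π ⁻¹' B i) hTm (fun i => hπ (hBm i))
    (fun i k hik => (hBd hik).preimage π) hTi ?_ fun i hi => ?_
  · rw [← Set.preimage_iUnion, ← Set.preimage_compl, ← Measure.map_apply hπ
      (MeasurableSet.iUnion hBm).compl]
    exact hB0
  · have h1 : IsProbabilityMeasure (cond m (π ⁻¹' B i)) :=
      ProbabilityTheory.cond_isProbabilityMeasure hi
    have h2 : (m.map π) (B i) ≠ 0 := by
      rw [Measure.map_apply hπ (hBm i)]
      exact hi
    have h3 : (cond m (π ⁻¹' B i)).map π = cond (m.map π) (B i) := cond_map hπ (hBm i)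
    have h4 := hBE i h2
    have h5 : IsProbabilityMeasure (cond (m.map π) (B i)) :=
      ProbabilityTheory.cond_isProbabilityMeasure h2
    refine hIE X Y π S T ρ (cond m (π ⁻¹' B i)) hI hS (cond_mp hTm (hπ (hBm i)) (hTi i)) ?_ ?_
    · rw [h3]
      exact h4
    · rw [h3]
      exact (hE _ h5 h4).1

end Pool.Agent.Helper40.ZU
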