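import Pool.Agent.Helper40.ZU.Stmts2

/-!
Row XGC of the sheet ZU (MP_7a8f48_an): continuous unitary cocycles.
-/

open MeasureTheory Filter Topology Finset

namespace Pool.Agent.Helper40.ZU

open Pool.Agent.Helper98.GY (IsoExt Emb FibreCts GoodC)
open Pool.Agent.Helper16.AZ (E Op)
open Pool.Agent.Helper16.BZ (ff co)
open Pool.Agent.Helper16.MD (MS)

theorem st_XGC (hFN : ST_XFN) : ST_XGC := by
  intro Y _ _ _ _ S hS hcnt hFi d φ v u x hφ hφu hv
  have hn : ∀ (y : Y) (w : E d), ‖φ y w‖ = ‖w‖ := fun y w =>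
    Unitary.norm_map ⟨_, hφu y⟩ w
  let Q : Type := Metric.closedBall (0 : E d) ‖u‖
  have hQc : CompactSpace Q := isCompact_iff_compactSpace.1 (isCompact_closedBall _ _)
  let T : Y × Q → Y × Q := fun z => (S z.1, ⟨φ z.1 z.2.1, by
    have h := z.2.2
    rw [Metric.mem_closedBall, dist_zero_right] at h ⊢
    rw [hn]
    exact h⟩)
  have hTc : Continuous T := by
    refine (hS.comp continuous_fst).prodMk (Continuous.subtype_mk ?_ _)
    exact (hφ.comp continuous_fst).clm_apply (continuous_subtype_val.comp continuous_snd)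
  let F : Y × Q → ℂ := fun z => inner ℂ (v z.1) z.2.1
  have hFc : Continuous F :=
    (hv.comp continuous_fst).inner (continuous_subtype_val.comp continuous_snd)
  let ρ : Y × Q → Y × Q → ℝ := fun z z' => dist z.2 z'.2
  have hI : IsoExt (Prod.fst : Y × Q → Y) S T ρ := by
    refine ⟨continuous_fst, fun z => rfl, ?_, ?_, ?_, ?_, ?_⟩
    · exact ((continuous_snd.comp continuous_fst).dist
        (continuous_snd.comp continuous_snd)).continuousOn
    · intro z z' h
      show dist z.2 z'.2 = 0 ↔ z = z'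
      rw [dist_eq_zero]
      exact ⟨fun h' => Prod.ext h h', fun h' => congrArg Prod.snd h'⟩
    · intro z z' _
      exact dist_comm _ _
    · intro z z' z'' _ _
      exact dist_triangle _ _ _
    · intro z z' h
      show dist (φ z.1 z.2.1) (φ z'.1 z'.2.1) = dist z.2.1 z'.2.1
      rw [show z'.1 = z.1 from h.symm, dist_eq_norm, dist_eq_norm, ← map_sub, hn]
  let z₀ : Y × Q := (x, ⟨u, by rw [Metric.mem_closedBall, dist_zero_right]⟩)
  have hit : ∀ n : ℕ, (T^[n] z₀).1 = S^[n] x ∧ ((T^[n] z₀).2 : E d) = co S φ n x u := by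
    intro n
    induction n with
    | zero => exact ⟨rfl, by simp [co, z₀]⟩
    | succ n ih =>
      rw [Function.iterate_succ_apply', Function.iterate_succ_apply']
      refine ⟨by show S _ = _; rw [ih.1], ?_⟩
      show φ (T^[n] z₀).1 (T^[n] z₀).2.1 = (φ (S^[n] x) * co S φ n x) u
      rw [ih.1]
      show φ (S^[n] x) ((T^[n] z₀).2 : E d) = φ (S^[n] x) (co S φ n x u)
      rw [ih.2]
  obtain ⟨C, hC⟩ : ∃ C : ℝ, ∀ z, ‖F z‖ ≤ C := by
    obtain ⟨C, hC⟩ := isCompact_univ.exists_bound_of_continuousOn hFc.continuousOn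
    exact ⟨C, fun z => hC z (Set.mem_univ _)⟩
  have h1 := hFN (Y × Q) Y Prod.fst S T ρ hI hS hTc.measurable hcnt
    (fun ν h1 h2 => ⟨hFi ν h1 h2, Eventually.of_forall fun y z _ => hTc.continuousAt⟩) F
    hFc.measurable ⟨C, hC⟩
    (fun ν _ _ => Eventually.of_forall fun y z _ => hFc.continuousAt) z₀
  refine h1.congr fun N => ?_
  congr 1
  unfold MS
  refine Finset.sum_congr rfl fun n _ => ?_
  congr 1
  show inner ℂ (v (T^[n] z₀).1) ((T^[n] z₀).2 : E d) = inner ℂ (v (S^[n] x)) (co S φ n x u)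
  rw [(hit n).1, (hit n).2]

end Pool.Agent.Helper40.ZU
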