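import Pool.Agent.Helper40.ZU.Stmts2

/-!
Row XIE of the sheet ZU (MP_7a8f48_an): isometric extensions, one invariant measure.
-/

open MeasureTheory Filter Topology Finset

namespace Pool.Agent.Helper40.ZU

open Pool.Agent.Helper98.GY (IsoExt Emb FibreCts GoodC)

theorem st_XIE (hIS : ST_XIS) (hFR : ST_XFR) (hTW : ST_XTW) (hGE : ST_TGE) : ST_XIE := by
  intro X Y _ _ _ _ _ _ _ _ π S T ρ m _ hI hS hT hE hFi
  obtain ⟨u, N, hTw, hgen⟩ := hFi
  have hπ : Measurable π := hI.1.measurable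
  have hpr : IsProbabilityMeasure (m.map π) := Measure.isProbabilityMeasure_map hπ.aemeasurable
  have hne : ∀ᵐ y ∂(m.map π), ∃ x, π x = y := by
    have hc : IsCompact (Set.range π) := isCompact_range hI.1
    have h1 : MeasurableSet (Set.range π) := hc.measurableSet
    rw [ae_map_iff hπ.aemeasurable h1]
    exact Eventually.of_forall fun x => ⟨x, rfl⟩
  obtain ⟨M, _, _, _, _, _, Y₀, h, g, hTri⟩ := hIS X Y π S T ρ (m.map π) hI hS hE hne
  obtain ⟨d, Φ, w, h1, h2⟩ := hFR X Y π S T m M Y₀ h g hπ hI.2.1 hT.measurable hTri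
  obtain ⟨φ, h3, h4⟩ := hTW X Y π S T m u N d Φ w hπ hI.2.1 hT hS.measurable hE hTw hgen h1 h2
  exact hGE X m T _ _ d φ w hT h3 h4

end Pool.Agent.Helper40.ZU
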