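import Pool.Agent.Helper40.GA.All
import Pool.Agent.Helper40.ZP.All
import Pool.Agent.Helper40.ZU.XIE
import Pool.Agent.Helper40.ZU.XFN
import Pool.Agent.Helper40.ZU.XGC
import Pool.Agent.Helper13.ZB.ZDA
import Pool.Agent.Helper34.ZB.ZDB
import Pool.Agent.Helper34.ZB.ZWU
import Pool.Agent.Helper49.ZB.ZLS
import Pool.Agent.Helper55.ZB.ZCS
import Pool.Agent.Helper55.ZB.ZLP
import Pool.Agent.Helper55.ZB.ZTP
import Pool.Agent.Helper89.ZB.ZMC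
import Pool.Agent.Helper98.ZB.ZCB
import Pool.Agent.Helper99.ZB.ZRW
import Pool.Agent.Helper99.ZB.ZWS
import Pool.Agent.Helper34.ZU.EDI
import Pool.Agent.Helper34.ZU.EMT
import Pool.Agent.Helper34.ZU.VAV
import Pool.Agent.Helper34.ZU.VOC
import Pool.Agent.Helper47.ZU.VCO
import Pool.Agent.Helper47.ZU.XTW
import Pool.Agent.Helper53.ZU.TGE
import Pool.Agent.Helper53.ZU.TRN
import Pool.Agent.Helper53.ZU.VSU
import Pool.Agent.Helper55.ZU.ECT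
import Pool.Agent.Helper72.ZU.VPH
import Pool.Agent.Helper72.ZU.XFR
import Pool.Agent.Helper72.ZU.XIS
import Pool.Agent.Helper73.ZU.MMX
import Pool.Agent.Helper73.ZU.MRL
import Pool.Agent.Helper73.ZU.XSL
import Pool.Agent.Helper74.ZU.MFA
import Pool.Agent.Helper74.ZU.VGE
import Pool.Agent.Helper74.ZU.VKT
import Pool.Agent.Helper94.ZU.SGA
import Pool.Agent.Helper94.ZU.VLM
import Pool.Agent.Helper94.ZU.VOE
import Pool.Agent.Helper94.ZU.VOK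
import Pool.Agent.Helper96.ZU.XPW
import Pool.Agent.Helper99.ZU.EGN
import Pool.Agent.Helper99.ZU.TCB
import Pool.Agent.Helper99.ZU.XMO

/-!
The modules of the sheet ZU put together.
-/

open MeasureTheory

namespace Pool.Agent.Helper40.ZU

open Pool.Agent.Helper98.ZB
open Pool.Agent.Helper40.ZP
open Pool.Agent.Helper40.GA (a_MHA m_MTV m_MSK m_MNK m_LMF m_MCE)

theorem b_ZLP : ST_ZLP := Pool.Agent.Helper55.ZB.st_ZLP m_LMF m_MCE

theorem b_ZLS : ST_ZLS := Pool.Agent.Helper49.ZB.st_ZLS m_MNK b_ZLP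

theorem b_ZMC : ST_ZMC := Pool.Agent.Helper89.ZB.st_ZMC Pool.Agent.Helper40.GA.a_MHA m_MTV m_MSK m_MNK m_LMF

theorem b_ZTP : ST_ZTP := Pool.Agent.Helper55.ZB.st_ZTP

theorem b_ZCB : ST_ZCB := Pool.Agent.Helper98.ZB.st_ZCB z_ZMJ b_ZMC b_ZLP b_ZLS b_ZTP

theorem b_ZCS : ST_ZCS := Pool.Agent.Helper55.ZB.st_ZCS

theorem b_ZDA : ST_ZDA := Pool.Agent.Helper13.ZB.st_ZDA

theorem b_ZDB : ST_ZDB := Pool.Agent.Helper34.ZB.st_ZDB

theorem b_ZRW : ST_ZRW := Pool.Agent.Helper99.ZB.st_ZRW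

theorem b_ZWS : ST_ZWS := Pool.Agent.Helper99.ZB.st_ZWS Pool.Agent.Helper34.ZB.st_ZWU

theorem u_EDI : ST_EDI := Pool.Agent.Helper34.ZU.st_EDI

theorem u_EGN : ST_EGN := Pool.Agent.Helper99.ZU.st_EGN Pool.Agent.Helper34.ZU.st_EMT

theorem u_ECT : ST_ECT := Pool.Agent.Helper55.ZU.st_ECT u_EDI

theorem u_VAV : ST_VAV := Pool.Agent.Helper34.ZU.st_VAV

theorem u_VOC : ST_VOC := Pool.Agent.Helper34.ZU.st_VOC

theorem u_VKT : ST_VKT := Pool.Agent.Helper74.ZU.st_VKT Pool.Agent.Helper16.MD.st_TKA z_WND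

theorem u_VCO : ST_VCO := Pool.Agent.Helper47.ZU.st_VCO u_VAV

theorem u_VPH : ST_VPH := Pool.Agent.Helper72.ZU.st_VPH z_ZMR u_VAV

theorem u_VOP : ST_VOP := Pool.Agent.Helper72.ZU.st_VOP u_VPH u_VAV

theorem u_VOK : ST_VOK := Pool.Agent.Helper94.ZU.st_VOK u_VKT u_VCO

theorem u_VOE : ST_VOE := Pool.Agent.Helper94.ZU.st_VOE u_VAV u_VOP u_VOK u_VOC

theorem u_VGE : ST_VGE := Pool.Agent.Helper74.ZU.st_VGE u_VOC u_VOE u_VOK

theorem u_VLM : ST_VLM := Pool.Agent.Helper94.ZU.st_VLM Pool.Agent.Helper53.ZU.st_VSU u_VGE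

theorem u_MMX : ST_MMX := Pool.Agent.Helper73.ZU.st_MMX

theorem u_MFA : ST_MFA := Pool.Agent.Helper74.ZU.st_MFA Pool.Agent.Helper73.ZU.st_MRL

theorem u_SGA : ST_SGA := Pool.Agent.Helper94.ZU.st_SGA u_ECT u_MMX

theorem u_TCB : ST_TCB := Pool.Agent.Helper99.ZU.st_TCB b_ZCB u_EDI u_EGN

theorem u_TRN : ST_TRN := Pool.Agent.Helper53.ZU.st_TRN z_ZFT b_ZCS u_TCB

theorem u_TGE : ST_TGE := Pool.Agent.Helper53.ZU.st_TGE u_TRN b_ZDB b_ZDA b_ZRW b_ZWS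

theorem u_XIS : ST_XIS :=
  Pool.Agent.Helper72.ZU.st_XIS Pool.Agent.Helper73.ZU.st_XSL Pool.Agent.Helper99.ZU.st_XMO

theorem u_XPW : ST_XPW :=
  Pool.Agent.Helper96.ZU.st_XPW Pool.Agent.Helper40.IZ.st_KOP Pool.Agent.Helper40.IZ.st_SPC

theorem u_XFR : ST_XFR := Pool.Agent.Helper72.ZU.st_XFR u_XPW Pool.Agent.Helper40.IZ.all_HMS

theorem u_XIE : ST_XIE := st_XIE u_XIS u_XFR Pool.Agent.Helper47.ZU.st_XTW u_TGE

theorem u_XFN : ST_XFN := st_XFN u_VLM u_VAV u_ECT u_MMX u_XIE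

theorem u_XGC : ST_XGC := st_XGC u_XFN

end Pool.Agent.Helper40.ZU
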