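import Pool.Agent.Helper98.ZB.Stmts

/-!
Orbits whose limit measures are countable mixtures of isometric extensions of ergodic towers
(MP_7a8f48_an): definitions and statements of the sheet ZU.
-/

open MeasureTheory Filter Topology Finset
open scoped ComplexConjugate

namespace Pool.Agent.Helper40.ZU

open Pool.Agent.Helper98.TW (SA BF Sys)
open Pool.Agent.Helper98.TA (Tr)
open Pool.Agent.Helper98.ZA (pr co Pe)
open Pool.Agent.Helper98.ZB (Tw Ev Cl Ra Co)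
open Pool.Agent.Helper16.MD (MS)
open Pool.Agent.Helper16.AZ (E Op)
open Pool.Agent.Helper16.BZ (Wk EE)

/-! ### measure preserving systems -/

/-- the correlations of `G` for the powers `p`, `q` are at most `η` (all large primes, all
invariant measures on the square with absolutely continuous marginals) -/
def Sm {X : Type} [MeasurableSpace X] (m : Measure X) (T : X → X) (G : X → ℂ) (η : ℝ) : Prop :=
  ∃ P₀ : ℕ, ∀ p q : ℕ, p.Prime → q.Prime → p ≠ q → P₀ ≤ p → P₀ ≤ q → ∀ κ : Measure (X × X),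
    IsProbabilityMeasure κ → MeasurePreserving (Prod.map T^[p] T^[q]) κ κ →
    κ.map Prod.fst ≪ m → κ.map Prod.snd ≪ m → ‖∫ z, G z.1 * conj (G z.2) ∂κ‖ ≤ η

/-- random functions: limits of functions with small correlations -/
def Rn {X : Type} [MeasurableSpace X] (m : Measure X) (T : X → X) (F : X → ℂ) : Prop :=
  MemLp F 2 m ∧ ∀ η : ℝ, 0 < η → ∃ G : X → ℂ, BF G ∧ ∫ z, ‖F z - G z‖ ^ 2 ∂m ≤ η ∧ Sm m T G η

/-- eigenfunctions -/
def Ei {X : Type} [MeasurableSpace X] (m : Measure X) (T : X → X) (F : X → ℂ) : Prop :=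
  MemLp F 2 m ∧ ∃ l : ℂ, ‖l‖ = 1 ∧ ∀ᵐ z ∂m, F (T z) = l * F z

/-- eigenfunctions and random functions span the space `L²` -/
def Ge {X : Type} [MeasurableSpace X] (m : Measure X) (T : X → X) : Prop :=
  ∀ F : X → ℂ, MemLp F 2 m → ∀ ε : ℝ, 0 < ε → ∃ (n : ℕ) (f : Fin n → X → ℂ),
    (∀ i, Ei m T (f i) ∨ Rn m T (f i)) ∧ ∫ z, ‖F z - ∑ i, f i z‖ ^ 2 ∂m ≤ ε

/-- the factor given by the functions `u` is ergodic -/
def Eb {X : Type} [MeasurableSpace X] (m : Measure X) (T : X → X) (u : ℕ → X → ℂ) : Prop :=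
  ∀ s : Set X, MeasurableSet[⨆ k, MeasurableSpace.comap (u k) inferInstance] s →
    T ⁻¹' s =ᵐ[m] s → m s = 0 ∨ m s = 1

/-! ### orbits -/

/-- `m` is the limit of the averages along the orbit of `x` for the filter `L`, and `T` is
continuous at `m`-almost all points -/
structure Lt {X : Type} [TopologicalSpace X] [MeasurableSpace X] (L : Filter ℕ) (T : X → X)
    (x : X) (m : Measure X) : Prop where
  ne : L.NeBot
  le : L ≤ atTop
  prob : IsProbabilityMeasure m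
  meas : Measurable T
  cts : ∀ᵐ z ∂m, ContinuousAt T z
  lim : ∀ G : C(X, ℝ), Tendsto (fun N : ℕ => (∑ n ∈ Icc 1 N, G (T^[n] x)) / (N : ℝ)) L
    (𝓝 (∫ z, G z ∂m))

/-- continuous functions near `G` have small correlations with the Moebius function -/
def Oe {X : Type} [TopologicalSpace X] [MeasurableSpace X] (L : Filter ℕ) (T : X → X) (x : X)
    (m : Measure X) (G : X → ℂ) (η : ℝ) : Prop :=
  ∃ δ : ℝ, 0 < δ ∧ ∀ H : C(X, ℂ), ∫ z, ‖H z - G z‖ ^ 2 ∂m ≤ δ → ∀ᶠ N : ℕ in L,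
    ‖MS (fun n => H (T^[n] x)) N‖ ≤ η * N

/-- `G` is orthogonal to the Moebius function along the orbit of `x` -/
def Or {X : Type} [TopologicalSpace X] [MeasurableSpace X] (L : Filter ℕ) (T : X → X) (x : X)
    (m : Measure X) (G : X → ℂ) : Prop := ∀ η : ℝ, 0 < η → Oe L T x m G η

/-! ### Block E: ergodic decomposition (no topology) -/

/-- EMT: the mean ergodic theorem with the invariant sigma algebra. -/
def ST_EMT : Prop := ∀ (Z : Type) [MeasurableSpace Z] (κ : Measure Z) [IsProbabilityMeasure κ]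
  (τ : Z → Z), MeasurePreserving τ κ κ → ∀ F : Z → ℝ, Measurable F → (∃ B : ℝ, ∀ z, |F z| ≤ B) →
  Tendsto (fun N : ℕ => ∫ z, |(∑ n ∈ range N, F (τ^[n] z)) / (N : ℝ) -
    (κ[F|MeasurableSpace.invariants τ]) z| ∂κ) atTop (𝓝 0)

/-- EDI: the ergodic decomposition. -/
def ST_EDI : Prop := ∀ (Z : Type) [MeasurableSpace Z] [StandardBorelSpace Z] (κ : Measure Z)
  [IsProbabilityMeasure κ] (τ : Z → Z), MeasurePreserving τ κ κ →
  ∃ K : ProbabilityTheory.Kernel Z Z, ProbabilityTheory.IsMarkovKernel K ∧ κ.bind K = κ ∧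
    ∀ᵐ ω ∂κ, Ergodic τ (K ω)

/-- EGN: generic points of an ergodic measure. -/
def ST_EGN : Prop := ∀ (Z : Type) [MeasurableSpace Z] [StandardBorelSpace Z] (μ : Measure Z)
  [IsProbabilityMeasure μ] (τ : Z → Z), Ergodic τ μ → ∃ A : Set Z, MeasurableSet A ∧
  μ Aᶜ = 0 ∧ ∀ (P : ℕ) (ν : Measure Z), 1 ≤ P → IsProbabilityMeasure ν →
    MeasurePreserving τ^[P] ν ν → ν Aᶜ = 0 → ∀ s : Set Z, MeasurableSet s → ν s ≤ P * μ s

/-- ECT: countably many ergodic measures. -/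
def ST_ECT : Prop := ∀ (Z : Type) [MeasurableSpace Z] [StandardBorelSpace Z] (τ : Z → Z),
  Measurable τ → {μ : Measure Z | IsProbabilityMeasure μ ∧ Ergodic τ μ}.Countable →
  ∀ m : Measure Z, IsProbabilityMeasure m → MeasurePreserving τ m m →
  ∃ B : ℕ → Set Z, (∀ i, MeasurableSet (B i)) ∧ Pairwise (fun i j => Disjoint (B i) (B j)) ∧
    (∀ i, τ ⁻¹' B i =ᵐ[m] B i) ∧ m (⋃ i, B i)ᶜ = 0 ∧
    ∀ i, m (B i) ≠ 0 → Ergodic τ (ProbabilityTheory.cond m (B i))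

/-! ### Block L: limits along an orbit -/

/-- VSU: subsequences and compactness. -/
def ST_VSU : Prop := ∀ (X : Type) [MetricSpace X] [CompactSpace X] [MeasurableSpace X]
  [BorelSpace X] (T : X → X) (x : X) (a : ℕ → ℂ), (∀ n, ‖a n‖ ≤ 1) →
  (∀ (j : ℕ → ℕ) (m : Measure X), StrictMono j → IsProbabilityMeasure m →
    (∀ G : C(X, ℝ), Tendsto (fun k : ℕ => (∑ n ∈ Icc 1 (j k), G (T^[n] x)) / (j k : ℝ)) atTop
      (𝓝 (∫ z, G z ∂m))) →
    Tendsto (fun k : ℕ => MS a (j k) / (j k : ℂ)) atTop (𝓝 0)) →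
  Tendsto (fun N : ℕ => MS a N / (N : ℂ)) atTop (𝓝 0)

/-- VAV: averages of functions which are continuous almost everywhere. -/
def ST_VAV : Prop := ∀ (X : Type) [MetricSpace X] [CompactSpace X] [MeasurableSpace X]
  [BorelSpace X] (L : Filter ℕ) (T : X → X) (x : X) (m : Measure X), Lt L T x m →
  MeasurePreserving T m m ∧ ∀ F : X → ℝ, Measurable F → (∃ B : ℝ, ∀ z, |F z| ≤ B) →
    (∀ᵐ z ∂m, ContinuousAt F z) →
    Tendsto (fun N : ℕ => (∑ n ∈ Icc 1 N, F (T^[n] x)) / (N : ℝ)) L (𝓝 (∫ z, F z ∂m)) ∧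
    Tendsto (fun N : ℕ => (∑ n ∈ range N, F (T^[n] x)) / (N : ℝ)) L (𝓝 (∫ z, F z ∂m))

/-- VKT: the criterion of Katai along a filter. -/
def ST_VKT : Prop := ∀ η : ℝ, 0 < η → η ≤ 1 → ∀ P₀ : ℕ, ∃ P₁ : ℕ,
  ∀ (L : Filter ℕ) (a : ℕ → ℂ), L ≤ atTop → (∀ n, ‖a n‖ ≤ 1) →
  (∀ p q : ℕ, p.Prime → q.Prime → p ≠ q → P₀ ≤ p → P₀ ≤ q → p ≤ P₁ → q ≤ P₁ →
    ∀ᶠ N : ℕ in L, ‖∑ n ∈ Icc 1 (N / max p q), a (p * n) * conj (a (q * n))‖ ≤
      η ^ 2 / 4096 * (N / max p q : ℕ)) →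
  ∀ᶠ N : ℕ in L, ‖MS a N‖ ≤ η * N

/-- VCO: correlations along an orbit. -/
def ST_VCO : Prop := ∀ (X : Type) [MetricSpace X] [CompactSpace X] [MeasurableSpace X]
  [BorelSpace X] (L : Filter ℕ) (T : X → X) (x : X) (m : Measure X), Lt L T x m →
  ∀ (p q : ℕ) (G : C(X, ℂ)) (c ε : ℝ), 1 ≤ p → 1 ≤ q → 0 < ε →
  (∀ κ : Measure (X × X), IsProbabilityMeasure κ →
    MeasurePreserving (Prod.map T^[p] T^[q]) κ κ →
    (∀ s, MeasurableSet s → κ.map Prod.fst s ≤ (max p q : ℕ) * m s) →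
    (∀ s, MeasurableSet s → κ.map Prod.snd s ≤ (max p q : ℕ) * m s) →
    ‖∫ z, G z.1 * conj (G z.2) ∂κ‖ ≤ c) →
  ∀ᶠ N : ℕ in L, ‖∑ n ∈ Icc 1 (N / max p q), G (T^[p * n] x) * conj (G (T^[q * n] x))‖ ≤
    (c + ε) * (N / max p q : ℕ)

/-- VOC: orthogonal functions form a closed subspace. -/
def ST_VOC : Prop := ∀ (X : Type) [MetricSpace X] [CompactSpace X] [MeasurableSpace X]
  [BorelSpace X] (L : Filter ℕ) (T : X → X) (x : X) (m : Measure X), Lt L T x m →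
  (∀ G G' : X → ℂ, G =ᵐ[m] G' → Or L T x m G → Or L T x m G') ∧
  (∀ G G' : X → ℂ, MemLp G 2 m → MemLp G' 2 m → Or L T x m G → Or L T x m G' →
    Or L T x m (fun y => G y + G' y)) ∧
  (∀ (c : ℂ) (G : X → ℂ), MemLp G 2 m → Or L T x m G → Or L T x m (fun y => c * G y)) ∧
  (∀ G : X → ℂ, MemLp G 2 m → (∀ ε : ℝ, 0 < ε → ∃ G' : X → ℂ, MemLp G' 2 m ∧
    Or L T x m G' ∧ ∫ y, ‖G y - G' y‖ ^ 2 ∂m ≤ ε) → Or L T x m G) ∧
  (∀ (G G' : X → ℂ) (η : ℝ), 0 < η → MemLp G 2 m → MemLp G' 2 m → Oe L T x m G' (η / 2) →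
    ∫ y, ‖G y - G' y‖ ^ 2 ∂m ≤ (η / 8) ^ 2 → Oe L T x m G η) ∧
  ∀ F : X → ℂ, Measurable F → (∃ B : ℝ, ∀ z, ‖F z‖ ≤ B) → (∀ᵐ z ∂m, ContinuousAt F z) →
    Or L T x m F → Tendsto (fun N : ℕ => MS (fun n => F (T^[n] x)) N / (N : ℂ)) L (𝓝 0)

/-- VPH: functions which are almost periodic with the period `k`. -/
def ST_VPH : Prop := ∀ (X : Type) [MetricSpace X] [CompactSpace X] [MeasurableSpace X]
  [BorelSpace X] (L : Filter ℕ) (T : X → X) (x : X) (m : Measure X), Lt L T x m →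
  ∀ (k : ℕ) (H : C(X, ℂ)) (P : X → ℂ) (δ : ℝ), 1 ≤ k → 0 < δ → (∀ y, ‖H y‖ ≤ 1) →
  Measurable P → MemLp P 2 m → (∀ᵐ y ∂m, P (T^[k] y) = P y) →
  ∫ y, ‖H y - P y‖ ^ 2 ∂m ≤ δ ^ 2 →
  ∀ᶠ N : ℕ in L, ‖MS (fun n => H (T^[n] x)) N‖ ≤ 3 * δ * N

/-- VOP: periodic functions. -/
def ST_VOP : Prop := ∀ (X : Type) [MetricSpace X] [CompactSpace X] [MeasurableSpace X]
  [BorelSpace X] (L : Filter ℕ) (T : X → X) (x : X) (m : Measure X), Lt L T x m →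
  ∀ (k : ℕ) (G : X → ℂ), 1 ≤ k → MemLp G 2 m → (∀ᵐ y ∂m, G (T^[k] y) = G y) →
    Or L T x m G

/-- VOK: functions with small correlations. -/
def ST_VOK : Prop := ∀ (X : Type) [MetricSpace X] [CompactSpace X] [MeasurableSpace X]
  [BorelSpace X] (L : Filter ℕ) (T : X → X) (x : X) (m : Measure X), Lt L T x m →
  ∀ (G : X → ℂ) (η : ℝ), BF G → 0 < η → Sm m T G (η ^ 2 / 40000) → Oe L T x m G η

/-- VOE: eigenfunctions. -/
def ST_VOE : Prop := ∀ (X : Type) [MetricSpace X] [CompactSpace X] [MeasurableSpace X]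
  [BorelSpace X] (L : Filter ℕ) (T : X → X) (x : X) (m : Measure X), Lt L T x m →
  ∀ v : X → ℂ, Ei m T v → Or L T x m v

/-- VGE: the theorem for one filter. -/
def ST_VGE : Prop := ∀ (X : Type) [MetricSpace X] [CompactSpace X] [MeasurableSpace X]
  [BorelSpace X] (L : Filter ℕ) (T : X → X) (x : X) (m : Measure X), Lt L T x m → Ge m T →
  ∀ F : X → ℂ, Measurable F → (∃ B : ℝ, ∀ z, ‖F z‖ ≤ B) → (∀ᵐ z ∂m, ContinuousAt F z) →
    Tendsto (fun N : ℕ => MS (fun n => F (T^[n] x)) N / (N : ℂ)) L (𝓝 0)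

/-! ### Block M: operations on systems (no topology) -/

/-- MMX: countable mixtures. -/
def ST_MMX : Prop := ∀ (X : Type) [MeasurableSpace X] (m : Measure X) [IsProbabilityMeasure m]
  (T : X → X) (B : ℕ → Set X), MeasurePreserving T m m → (∀ i, MeasurableSet (B i)) →
  Pairwise (fun i j => Disjoint (B i) (B j)) → (∀ i, T ⁻¹' B i =ᵐ[m] B i) →
  m (⋃ i, B i)ᶜ = 0 → (∀ i, m (B i) ≠ 0 → Ge (ProbabilityTheory.cond m (B i)) T) → Ge m T

/-- MRL: the relatively independent lift of a joining. -/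
def ST_MRL : Prop := ∀ (X Ω : Type) [MeasurableSpace X] [StandardBorelSpace X]
  [MeasurableSpace Ω] [StandardBorelSpace Ω] (m : Measure X) [IsProbabilityMeasure m]
  (ρ : Measure Ω) [IsProbabilityMeasure ρ] (T T' : X → X) (R : Ω → Ω) (θ : Ω → X),
  MeasurePreserving T m m → Measurable T' → (∀ᵐ z ∂m, T' (T z) = z) →
  MeasurePreserving R ρ ρ → Measurable θ → ρ.map θ = m → (∀ᵐ w ∂ρ, θ (R w) = T (θ w)) →
  ∀ (p q : ℕ) (κ : Measure (X × X)), IsProbabilityMeasure κ →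
    MeasurePreserving (Prod.map T^[p] T^[q]) κ κ → κ.map Prod.fst ≪ m → κ.map Prod.snd ≪ m →
  ∃ κ' : Measure (Ω × Ω), IsProbabilityMeasure κ' ∧
    MeasurePreserving (Prod.map R^[p] R^[q]) κ' κ' ∧ κ'.map Prod.fst ≪ ρ ∧
    κ'.map Prod.snd ≪ ρ ∧ ∀ (G : Ω → ℂ) (g : X → ℂ), BF G → BF g →
      (fun w => g (θ w)) =ᵐ[ρ] ρ[G|MeasurableSpace.comap θ inferInstance] →
      ∫ z, g z.1 * conj (g z.2) ∂κ = ∫ w, G w.1 * conj (G w.2) ∂κ'

/-- MFA: factors. -/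
def ST_MFA : Prop := ∀ (X Ω : Type) [MeasurableSpace X] [StandardBorelSpace X]
  [MeasurableSpace Ω] [StandardBorelSpace Ω] (m : Measure X) [IsProbabilityMeasure m]
  (ρ : Measure Ω) [IsProbabilityMeasure ρ] (T T' : X → X) (R : Ω → Ω) (θ : Ω → X),
  MeasurePreserving T m m → Measurable T' → (∀ᵐ z ∂m, T' (T z) = z) →
  MeasurePreserving R ρ ρ → Measurable θ → ρ.map θ = m → (∀ᵐ w ∂ρ, θ (R w) = T (θ w)) →
  Ge ρ R → Ge m T

/-! ### Block T: towers -/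

/-- TCB: correlations for ergodic towers and all invariant measures on the square. -/
def ST_TCB : Prop := ∀ (Ω : Type) [MeasurableSpace Ω] [StandardBorelSpace Ω] (μ : Measure Ω)
  [IsProbabilityMeasure μ] (R R' : Ω → Ω) (u : ℕ → Ω → ℂ) (N k : ℕ) (B : Set Ω) (d : ℕ)
  (φ : Ω → Op d) (c c₀ : Ω → E d), Sys μ R R' → Ergodic R μ → Pe μ R R' u N k B →
  StronglyMeasurable φ → (∀ x, φ x ∈ unitary (Op d)) → StronglyMeasurable c →
  (∃ b : ℝ, ∀ x, ‖c x‖ ≤ b) → Ra μ R φ c₀ → ∀ ε : ℝ, 0 < ε → ∃ P₀ : ℕ,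
  ∀ p ≥ P₀, p.Prime → ∀ q ≥ P₀, q.Prime → p ≠ q → ∀ κ : Measure (Ω × Ω),
  IsProbabilityMeasure κ → MeasurePreserving (Prod.map R^[p * k] R^[q * k]) κ κ →
  κ.map Prod.fst ≪ μ → κ.map Prod.snd ≪ μ → ∀ᶠ H : ℕ in atTop,
    ‖∑ h ∈ range H, ∑ h' ∈ range H, ∫ z, EE R φ c (p * k * h) (p * k * h') z.1 *
      conj (EE R φ c (q * k * h) (q * k * h') z.2) ∂κ‖ ≤
      (2 * (k : ℝ) ^ 2 * (∫ x, ‖c x‖ ^ 2 ∂μ) * (∫ x, ‖c x - c₀ x‖ ^ 2 ∂μ) + ε) * (H : ℝ) ^ 2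

/-- TRN: random coefficients. -/
def ST_TRN : Prop := ∀ (X : Type) [MeasurableSpace X] (m : Measure X) [IsProbabilityMeasure m]
  (T : X → X) (u : ℕ → X → ℂ) (k d : ℕ) (φ : (Fin k → ℂ) → Op d) (e : X → E d)
  (R R' : (Fin k → ℂ) → (Fin k → ℂ)) (A : ℕ → SA (Fin k → ℂ)) (c₀ : (Fin k → ℂ) → E d),
  MeasurePreserving T m m → Tw m T u → Ev m T u k d φ e → Sys (m.map (pr u k)) R R' →
  (∀ᵐ y ∂m, pr u k (T y) = R (pr u k y)) → Ergodic R (m.map (pr u k)) →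
  Tr (m.map (pr u k)) R (fun i z => co i z) A k → Ra (m.map (pr u k)) R φ c₀ →
  Rn m T (fun y => (inner ℂ (c₀ (pr u k y)) (e y) : ℂ))

/-- TGE: towers. -/
def ST_TGE : Prop := ∀ (X : Type) [MeasurableSpace X] (m : Measure X) [IsProbabilityMeasure m]
  (T : X → X) (u : ℕ → X → ℂ) (k d : ℕ → ℕ) (φ : ∀ j, (Fin (k j) → ℂ) → Op (d j))
  (e : ∀ j, X → E (d j)), MeasurePreserving T m m → Cl m T u k d φ e → Eb m T u → Ge m T

end Pool.Agent.Helper40.ZU
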