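import Pool.Agent.Helper40.ZU.Stmts
import Pool.Agent.Helper98.GY.Stmts2
import Pool.Agent.Helper40.IZ.Stmts

/-!
Isometric extensions of systems with countably many ergodic measures (MP_7a8f48_an): statements of
the second part of the sheet ZU.
-/

open MeasureTheory Filter Topology Finset
open scoped ComplexConjugate

namespace Pool.Agent.Helper40.ZU

open Pool.Agent.Helper98.TW (SA BF Sys)
open Pool.Agent.Helper98.ZA (pr co Pe)
open Pool.Agent.Helper98.ZB (Tw Ev Cl Ra Co)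
open Pool.Agent.Helper16.MD (MS)
open Pool.Agent.Helper16.AZ (E Op)
open Pool.Agent.Helper16.BZ (ff)
open Pool.Agent.Helper98.GY (IsoExt Emb FibreCts GoodC)
open Pool.Agent.Helper40.IZ (Fr)

/-! ### Block X: isometric extensions -/

/-- XSL: measurable selection in a compact set. -/
def ST_XSL : Prop := ∀ (Y Z : Type) [MetricSpace Y] [MeasurableSpace Y] [BorelSpace Y]
  [MetricSpace Z] [MeasurableSpace Z] [BorelSpace Z] (G : Set (Y × Z)), IsCompact G →
  G.Nonempty → ∃ θ : Y → Z, Measurable θ ∧ ∀ y, (∃ z, (y, z) ∈ G) → (y, θ y) ∈ G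

/-- XMO: almost all fibres are isometric. -/
def ST_XMO : Prop := ∀ (X Y : Type) [MetricSpace X] [CompactSpace X] [MetricSpace Y]
  [CompactSpace Y] [MeasurableSpace Y] [BorelSpace Y] (π : X → Y) (S : Y → Y) (T : X → X)
  (ρ : X → X → ℝ) (ν : Measure Y) [IsProbabilityMeasure ν], IsoExt π S T ρ → Continuous S →
  Ergodic S ν → (∀ᵐ y ∂ν, ∃ x, π x = y) →
  ∃ (M : Type) (_ : MetricSpace M) (_ : CompactSpace M) (_ : Nonempty M) (Y₀ : Set Y),
    MeasurableSet Y₀ ∧ ν Y₀ᶜ = 0 ∧ (∀ y ∈ Y₀, S y ∈ Y₀) ∧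
    IsCompact {p : Y × C(M, X) | p.2 ∈ Emb π ρ M p.1} ∧
    ∀ y ∈ Y₀, (Emb π ρ M y).Nonempty ∧ ∀ θ ∈ Emb π ρ M y, ∀ x, π x = y → ∃ m, θ m = x

/-- `h` is a measurable coordinate on the fibres with values in the compact space `M`, on which the
map `T` acts by isometries; `g` is the inverse -/
structure Tri {X Y : Type} [MeasurableSpace X] [MeasurableSpace Y] (π : X → Y) (S : Y → Y)
    (T : X → X) (ν : Measure Y) (M : Type) [MetricSpace M] [MeasurableSpace M] (Y₀ : Set Y)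
    (h : X → M) (g : Y × M → X) : Prop where
  ms : MeasurableSet Y₀
  full : ν Y₀ᶜ = 0
  inv : ∀ y ∈ Y₀, S y ∈ Y₀
  mh : Measurable h
  mg : Measurable g
  hg : ∀ y ∈ Y₀, ∀ a : M, π (g (y, a)) = y ∧ h (g (y, a)) = a
  gh : ∀ x, π x ∈ Y₀ → g (π x, h x) = x
  iso : ∀ y ∈ Y₀, ∃ k : M ≃ᵢ M, ∀ x, π x = y → h (T x) = k (h x)

/-- XIS: the trivialisation. -/
def ST_XIS : Prop := ∀ (X Y : Type) [MetricSpace X] [CompactSpace X] [MeasurableSpace X]
  [BorelSpace X] [MetricSpace Y] [CompactSpace Y] [MeasurableSpace Y] [BorelSpace Y] (π : X → Y)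
  (S : Y → Y) (T : X → X) (ρ : X → X → ℝ) (ν : Measure Y) [IsProbabilityMeasure ν],
  IsoExt π S T ρ → Continuous S → Ergodic S ν → (∀ᵐ y ∂ν, ∃ x, π x = y) →
  ∃ (M : Type) (_ : MetricSpace M) (_ : CompactSpace M) (_ : Nonempty M) (_ : MeasurableSpace M)
    (_ : BorelSpace M) (Y₀ : Set Y) (h : X → M) (g : Y × M → X), Tri π S T ν M Y₀ h g

/-- XPW: finite dimensional invariant spaces separate the points (Peter and Weyl). -/
def ST_XPW : Prop := ∀ (M : Type) [MetricSpace M] [CompactSpace M] [MeasurableSpace M]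
  [BorelSpace M] (μ : Measure M) [IsProbabilityMeasure μ],
  (∀ U : Set M, IsOpen U → U.Nonempty → 0 < μ U) → (∀ k : M ≃ᵢ M, MeasurePreserving k μ μ) →
  ∃ (d : ℕ → ℕ) (e : ∀ n, Fin (d n) → C(M, ℂ)), (∀ n, Fr μ (e n)) ∧
    ∀ a b : M, (∀ n i, e n i a = e n i b) → a = b

/-- XFR: measurable frames. -/
def ST_XFR : Prop := ∀ (X Y : Type) [MeasurableSpace X] [StandardBorelSpace X]
  [MeasurableSpace Y] [StandardBorelSpace Y] (π : X → Y) (S : Y → Y) (T : X → X) (m : Measure X)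
  [IsProbabilityMeasure m] (M : Type) [MetricSpace M] [CompactSpace M] [Nonempty M]
  [MeasurableSpace M] [BorelSpace M] (Y₀ : Set Y) (h : X → M) (g : Y × M → X), Measurable π →
  (∀ x, π (T x) = S (π x)) → Measurable T → Tri π S T (m.map π) M Y₀ h g →
  ∃ (d : ℕ → ℕ) (Φ : ∀ j, Y → Op (d j)) (w : ∀ j, X → E (d j)),
    (∀ j, StronglyMeasurable (Φ j) ∧ (∀ y, Φ j y ∈ unitary (Op (d j))) ∧ Measurable (w j) ∧
      (∀ x, ‖w j x‖ ≤ 1) ∧ ∀ᵐ x ∂m, w j (T x) = Φ j (π x) (w j x)) ∧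
    ∀ s, MeasurableSet s → ∃ t, MeasurableSet[MeasurableSpace.comap π inferInstance ⊔
      (⨆ j, MeasurableSpace.comap (w j) inferInstance)] t ∧ s =ᵐ[m] t

/-- XTW: frames over a finite tower. -/
def ST_XTW : Prop := ∀ (X Y : Type) [MeasurableSpace X] [StandardBorelSpace X]
  [MeasurableSpace Y] [StandardBorelSpace Y] (π : X → Y) (S : Y → Y) (T : X → X) (m : Measure X)
  [IsProbabilityMeasure m] (u : ℕ → Y → ℂ) (N : ℕ) (d : ℕ → ℕ) (Φ : ∀ j, Y → Op (d j))
  (w : ∀ j, X → E (d j)), Measurable π → (∀ x, π (T x) = S (π x)) → MeasurePreserving T m m →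
  Measurable S → Ergodic S (m.map π) → Tw (m.map π) S u →
  (∀ s, MeasurableSet s → ∃ t, MeasurableSet[MeasurableSpace.comap (pr u N) inferInstance] t ∧
    s =ᵐ[m.map π] t) →
  (∀ j, StronglyMeasurable (Φ j) ∧ (∀ y, Φ j y ∈ unitary (Op (d j))) ∧ Measurable (w j) ∧
      (∀ x, ‖w j x‖ ≤ 1) ∧ ∀ᵐ x ∂m, w j (T x) = Φ j (π x) (w j x)) →
  (∀ s, MeasurableSet s → ∃ t, MeasurableSet[MeasurableSpace.comap π inferInstance ⊔
      (⨆ j, MeasurableSpace.comap (w j) inferInstance)] t ∧ s =ᵐ[m] t) →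
  ∃ φ : ∀ j, (Fin N → ℂ) → Op (d j), Cl m T (fun k x => u k (π x)) (fun _ => N) d φ w ∧
    Eb m T (fun k x => u k (π x))

/-- the ergodic measure `ν` is given by finitely many functions of a tower -/
def Fi {Y : Type} [MeasurableSpace Y] (ν : Measure Y) (S : Y → Y) : Prop :=
  ∃ (u : ℕ → Y → ℂ) (N : ℕ), Tw ν S u ∧ ∀ s, MeasurableSet s →
    ∃ t, MeasurableSet[MeasurableSpace.comap (pr u N) inferInstance] t ∧ s =ᵐ[ν] t

/-- XIE: isometric extensions, one invariant measure. -/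
def ST_XIE : Prop := ∀ (X Y : Type) [MetricSpace X] [CompactSpace X] [MeasurableSpace X]
  [BorelSpace X] [MetricSpace Y] [CompactSpace Y] [MeasurableSpace Y] [BorelSpace Y] (π : X → Y)
  (S : Y → Y) (T : X → X) (ρ : X → X → ℝ) (m : Measure X) [IsProbabilityMeasure m],
  IsoExt π S T ρ → Continuous S → MeasurePreserving T m m → Ergodic S (m.map π) →
  Fi (m.map π) S → Ge m T

/-- XFN: the theorem on isometric extensions. -/
def ST_XFN : Prop := ∀ (X Y : Type) [MetricSpace X] [CompactSpace X] [MeasurableSpace X]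
  [BorelSpace X] [MetricSpace Y] [CompactSpace Y] [MeasurableSpace Y] [BorelSpace Y] (π : X → Y)
  (S : Y → Y) (T : X → X) (ρ : X → X → ℝ), IsoExt π S T ρ → Continuous S → Measurable T →
  {ν : Measure Y | IsProbabilityMeasure ν ∧ Ergodic S ν}.Countable →
  (∀ ν : Measure Y, IsProbabilityMeasure ν → Ergodic S ν → Fi ν S ∧ FibreCts ν π T) →
  ∀ F : X → ℂ, Measurable F → (∃ C : ℝ, ∀ x, ‖F x‖ ≤ C) →
  (∀ ν : Measure Y, IsProbabilityMeasure ν → Ergodic S ν → FibreCts ν π F) → ∀ x : X,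
  Tendsto (fun N : ℕ => MS (fun n => F (T^[n] x)) N / (N : ℂ)) atTop (𝓝 0)

/-- XGC: continuous unitary cocycles. -/
def ST_XGC : Prop := ∀ (Y : Type) [MetricSpace Y] [CompactSpace Y] [MeasurableSpace Y]
  [BorelSpace Y] (S : Y → Y), Continuous S →
  {ν : Measure Y | IsProbabilityMeasure ν ∧ Ergodic S ν}.Countable →
  (∀ ν : Measure Y, IsProbabilityMeasure ν → Ergodic S ν → Fi ν S) → GoodC S

/-! ### the theorem on limit measures -/

/-- VLM: the theorem on one orbit. -/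
def ST_VLM : Prop := ∀ (X : Type) [MetricSpace X] [CompactSpace X] [MeasurableSpace X]
  [BorelSpace X] (T : X → X) (x : X) (F : X → ℂ), Measurable T → Measurable F →
  (∃ B : ℝ, ∀ z, ‖F z‖ ≤ B) →
  (∀ (j : ℕ → ℕ) (m : Measure X), StrictMono j → IsProbabilityMeasure m →
    (∀ G : C(X, ℝ), Tendsto (fun k : ℕ => (∑ n ∈ Icc 1 (j k), G (T^[n] x)) / (j k : ℝ)) atTop
      (𝓝 (∫ z, G z ∂m))) →
    (∀ᵐ z ∂m, ContinuousAt T z) ∧ (∀ᵐ z ∂m, ContinuousAt F z) ∧ Ge m T) →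
  Tendsto (fun N : ℕ => MS (fun n => F (T^[n] x)) N / (N : ℂ)) atTop (𝓝 0)

/-- VCT: countably many ergodic measures. -/
def ST_VCT : Prop := ∀ (X : Type) [MetricSpace X] [CompactSpace X] [MeasurableSpace X]
  [BorelSpace X] (T : X → X), Continuous T →
  {m : Measure X | IsProbabilityMeasure m ∧ Ergodic T m}.Countable →
  (∀ m : Measure X, IsProbabilityMeasure m → Ergodic T m → Ge m T) → ∀ (F : C(X, ℂ)) (x : X),
  Tendsto (fun N : ℕ => MS (fun n => F (T^[n] x)) N / (N : ℂ)) atTop (𝓝 0)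

end Pool.Agent.Helper40.ZU
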