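import Pool.Agent.Helper40.ZU.Stmts2

/-!
Strong form (moving orbits, short intervals) for systems all of whose invariant measures have the
property `Ge` (MP_7a8f48_an): statements of the third part of the sheet ZU.
-/

open MeasureTheory Filter Topology Finset
open scoped ComplexConjugate

namespace Pool.Agent.Helper40.ZU

open Pool.Agent.Helper98.TW (SA BF Sys)
open Pool.Agent.Helper16.MD (MS)

/-- all invariant measures have the property `Ge` -/
def Ga {X : Type} [MeasurableSpace X] (T : X → X) : Prop :=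
  ∀ m : Measure X, IsProbabilityMeasure m → MeasurePreserving T m m → Ge m T

/-- MIS: isomorphic systems. -/
def ST_MIS : Prop := ∀ (X Z : Type) [MeasurableSpace X] [MeasurableSpace Z] (m : Measure Z)
  [IsProbabilityMeasure m] (T : X → X) (R : Z → Z) (π : Z → X) (j : X → Z), Measurable T →
  Measurable π → Measurable j → MeasurePreserving R m m → (∀ᵐ z ∂m, j (π z) = z) →
  (∀ᵐ z ∂m, π (R z) = T (π z)) → Ge (m.map π) T → Ge m R

/-- SGA: countably many ergodic measures. -/
def ST_SGA : Prop := ∀ (X : Type) [MeasurableSpace X] [StandardBorelSpace X] (T : X → X),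
  Measurable T → {m : Measure X | IsProbabilityMeasure m ∧ Ergodic T m}.Countable →
  (∀ m : Measure X, IsProbabilityMeasure m → Ergodic T m → Ge m T) → Ga T

/-- SFI: the product with a finite set. -/
def ST_SFI : Prop := ∀ (X : Type) [MeasurableSpace X] (T : X → X), Measurable T → Ga T →
  Ga (fun z : X × Fin 4 => (T z.1, z.2))

/-- SSQ: sequences which follow the orbits for most times. -/
def ST_SSQ : Prop := ∀ (W : Type) [MetricSpace W] [CompactSpace W] [MeasurableSpace W]
  [BorelSpace W] (R : W → W) (w : ℕ → W) (F : C(W, ℂ)), Continuous R → Ga R →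
  Tendsto (fun N : ℕ => (Nat.card {n : ℕ // n < N ∧ w (n + 1) ≠ R (w n)} : ℝ) / (N : ℝ)) atTop
    (𝓝 0) →
  Tendsto (fun N : ℕ => MS (fun n => F (w n)) N / (N : ℂ)) atTop (𝓝 0)

/-- SMO: strong orthogonality along moving orbits. -/
def ST_SMO : Prop := ∀ (X : Type) [MetricSpace X] [CompactSpace X] [MeasurableSpace X]
  [BorelSpace X] (T : X → X) (F : C(X, ℂ)), Continuous T → Ga T →
  ∀ (b : ℕ → ℕ) (x : ℕ → X), StrictMono b → Tendsto (fun k => b (k + 1) - b k) atTop atTop →
  Tendsto (fun K : ℕ => (∑ k ∈ range K, ‖∑ n ∈ Ico (b k) (b (k + 1)),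
    ((ArithmeticFunction.moebius n : ℤ) : ℂ) * F (T^[n - b k] (x k))‖) / (b K : ℝ)) atTop (𝓝 0)

/-- SUX: uniform convergence. -/
def ST_SUX : Prop := ∀ (X : Type) [MetricSpace X] [CompactSpace X] [MeasurableSpace X]
  [BorelSpace X] (T : X → X) (F : C(X, ℂ)), Continuous T → Ga T →
  TendstoUniformly (fun (N : ℕ) (x : X) => MS (fun n => F (T^[n] x)) N / (N : ℂ)) (fun _ => 0)
    atTop

end Pool.Agent.Helper40.ZU
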